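import Pool.Agent.H17.HV.DMA

/-!
# The image of a measure under a minimal function is normal (MP_e37c09_lc, row DM)
-/

open Ordinal Cardinal Order Set
open scoped ZFSet

universe u

namespace Pool.Agent.H17.HV

open _root_.HD HD.PRK HD.HV Pool.Agent.H45.NF

/-- a relation of ordinals as a relation of sets -/
theorem dr_set {R : Ordinal.{u} → Ordinal.{u} → Prop} (h : DR R) :
    ∃ R' : ZFSet.{u} → ZFSet.{u} → Prop, (∀ i j, DZ.{u} fun v => R' (v i) (v j)) ∧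
      ∀ a b : Ordinal.{u}, R' a.toZFSet b.toZFSet ↔ R a b := by
  obtain ⟨Q, hQ, h⟩ := h
  refine ⟨fun x y => Q fun n => if n = 0 then x else y, fun i j => ?_, fun a b => ?_⟩
  · refine (hQ.ren fun n => if n = 0 then i else j).congr fun v => ?_
    have : (fun n => if n = 0 then v i else v j) = fun n => v (if n = 0 then i else j) := by
      funext n
      split_ifs <;> rfl
    show Q (fun n => if n = 0 then v i else v j) ↔ _
    rw [this]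
  · have h1 := h fun n => if n = 0 then a else b
    have h2 : (ov fun n => if n = 0 then a else b) =
        fun n => if n = 0 then a.toZFSet else b.toZFSet := by
      funext n
      show (if n = 0 then a else b).toZFSet = _
      split_ifs <;> rfl
    rw [h2] at h1
    exact h1.symm

/-- sets which are definable from `U` and a set definable from `U` -/
theorem odp2 {U f x : ZFSet.{u}} {P : ZFSet.{u} → ZFSet.{u} → ZFSet.{u} → Prop}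
    (hP : DZ.{u} fun v => P (v 0) (v 1) (v 2)) (hf : NF.ODp U f)
    (hx : ∀ z, z ∈ x ↔ P z U f) : NF.ODp U x := by
  refine Pool.Agent.H97.HV.odp_trans (x := ZFSet.pair U f) ?_ ?_
  · obtain ⟨Q, hQ, g⟩ := ODp.def hf
    refine ODp.of_dz (Q := fun v => ∃ z, Q (cons z fun _ => v 1) ∧ v 0 = ZFSet.pair (v 1) z)
      (DZ.ex (R := fun z v => Q (cons z fun _ => v 1) ∧ v 0 = ZFSet.pair (v 1) z)
        (DZ.and ?_ (loc_pair 1 2 0).dz)) fun z => ?_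
    · refine (hQ.ren fun n => if n = 0 then 0 else 2).congr fun v => ?_
      have : (cons (v 0) fun _ => v 2) = fun n => v (if n = 0 then 0 else 2) := by
        funext n
        rcases n with _ | n <;> simp
      rw [← this]
    · show (∃ w, Q (cons w fun _ => U) ∧ z = ZFSet.pair U w) ↔ z = ZFSet.pair U f
      constructor
      · rintro ⟨w, hw, rfl⟩
        rw [(g w).1 hw]
      · rintro rfl
        exact ⟨f, (g f).2 rfl, rfl⟩
  · refine ODp.of_dz (Q := fun v => ∃ a b, v 1 = ZFSet.pair a b ∧ ∀ z, (z ∈ v 0 ↔ P z a b))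
      ?_ fun z => ?_
    · refine DZ.ex (R := fun a v => ∃ b, v 1 = ZFSet.pair a b ∧ ∀ z, (z ∈ v 0 ↔ P z a b)) ?_
      refine DZ.ex (R := fun b v => v 2 = ZFSet.pair (v 0) b ∧
        ∀ z, (z ∈ v 1 ↔ P z (v 0) b)) ?_
      refine (loc_pair 3 1 0).dz.and ?_
      refine DZ.all (R := fun z v => (z ∈ v 2 ↔ P z (v 1) (v 0))) ?_
      refine (DZ.mem 0 3).iff ?_
      exact hP.ren fun n => if n = 0 then 0 else if n = 1 then 2 else 1
    · show (∃ a b, ZFSet.pair U f = ZFSet.pair a b ∧ ∀ w, (w ∈ z ↔ P w a b)) ↔ z = x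
      constructor
      · rintro ⟨a, b, h1, h2⟩
        obtain ⟨rfl, rfl⟩ := ZFSet.pair_injective h1
        ext w
        rw [h2 w, hx w]
      · rintro rfl
        exact ⟨U, f, rfl, hx⟩

section

variable (R' : ZFSet.{u} → ZFSet.{u} → Prop)

/-- the points `b` with `R' (f b) η` -/
noncomputable def sb (k f η : ZFSet.{u}) : ZFSet.{u} :=
  ZFSet.sep (fun b => ∀ c, ZFSet.pair b c ∈ f → R' c η) k

/-- `η` is bad at `c` -/
def Bad (k U f c η : ZFSet.{u}) : Prop := ¬ (R' c η ↔ sb R' k f η ∈ U)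

/-- the pair `z` is in the graph of the least bad ordinal -/
def gP (z k U f : ZFSet.{u}) : Prop := ∃ b c η, z = ZFSet.pair b η ∧ b ∈ k ∧
  ZFSet.pair b c ∈ f ∧ ((η ∈ c ∧ Bad R' k U f c η ∧ ∀ ζ ∈ η, ¬ Bad R' k U f c ζ) ∨
    (η = ∅ ∧ ∀ ζ ∈ c, ¬ Bad R' k U f c ζ))

variable {R'} (hR : ∀ i j, DZ.{u} fun v => R' (v i) (v j))

include hR

theorem dz_sb (i j l n : ℕ) : DZ.{u} fun v => sb R' (v i) (v j) (v l) ∈ v n := by
  have h : DZ.{u} fun v => ∃ y ∈ v n, ∀ b, (b ∈ y ↔ b ∈ v i ∧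
      ∀ c, ZFSet.pair b c ∈ v j → R' c (v l)) := by
    refine DZ.exMem (R := fun y v => ∀ b, (b ∈ y ↔ b ∈ v i ∧
      ∀ c, ZFSet.pair b c ∈ v j → R' c (v l))) n ?_
    refine DZ.all (R := fun b v => (b ∈ v 0 ↔ b ∈ v (i + 1) ∧
      ∀ c, ZFSet.pair b c ∈ v (j + 1) → R' c (v (l + 1)))) ?_
    refine (DZ.mem 0 1).iff ((DZ.mem 0 (i + 2)).and ?_)
    refine DZ.all (R := fun c v => ZFSet.pair (v 0) c ∈ v (j + 2) → R' c (v (l + 2))) ?_
    exact (loc_pmem 1 0 (j + 3)).dz.imp (hR 0 (l + 3))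
  refine h.congr fun v => ?_
  constructor
  · intro e
    exact ⟨_, e, fun b => ZFSet.mem_sep⟩
  · rintro ⟨y, hy, e⟩
    have : sb R' (v i) (v j) (v l) = y := by
      ext b
      rw [e b]
      exact ZFSet.mem_sep
    rw [this]
    exact hy

theorem dz_bad (i n j a b : ℕ) : DZ.{u} fun v => Bad R' (v i) (v n) (v j) (v a) (v b) :=
  ((hR a b).iff (dz_sb hR i j b n)).not

theorem dz_gP : DZ.{u} fun v => gP R' (v 0) (v 1) (v 2) (v 3) := by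
  refine DZ.ex (R := fun b v => ∃ c η, v 0 = ZFSet.pair b η ∧ b ∈ v 1 ∧
    ZFSet.pair b c ∈ v 3 ∧ ((η ∈ c ∧ Bad R' (v 1) (v 2) (v 3) c η ∧
      ∀ ζ ∈ η, ¬ Bad R' (v 1) (v 2) (v 3) c ζ) ∨
    (η = ∅ ∧ ∀ ζ ∈ c, ¬ Bad R' (v 1) (v 2) (v 3) c ζ))) ?_
  refine DZ.ex (R := fun c v => ∃ η, v 1 = ZFSet.pair (v 0) η ∧ v 0 ∈ v 2 ∧
    ZFSet.pair (v 0) c ∈ v 4 ∧ ((η ∈ c ∧ Bad R' (v 2) (v 3) (v 4) c η ∧
      ∀ ζ ∈ η, ¬ Bad R' (v 2) (v 3) (v 4) c ζ) ∨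
    (η = ∅ ∧ ∀ ζ ∈ c, ¬ Bad R' (v 2) (v 3) (v 4) c ζ))) ?_
  refine DZ.ex (R := fun η v => v 2 = ZFSet.pair (v 1) η ∧ v 1 ∈ v 3 ∧
    ZFSet.pair (v 1) (v 0) ∈ v 5 ∧ ((η ∈ v 0 ∧ Bad R' (v 3) (v 4) (v 5) (v 0) η ∧
      ∀ ζ ∈ η, ¬ Bad R' (v 3) (v 4) (v 5) (v 0) ζ) ∨
    (η = ∅ ∧ ∀ ζ ∈ v 0, ¬ Bad R' (v 3) (v 4) (v 5) (v 0) ζ))) ?_
  -- order of the variables: η, c, b, z, k, U, f
  refine (loc_pair 3 2 0).dz.and ((DZ.mem 2 4).and ((loc_pmem 2 1 6).dz.and (DZ.or ?_ ?_)))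
  · refine (DZ.mem 0 1).and ((dz_bad hR 4 5 6 1 0).and ?_)
    exact DZ.allMem (R := fun ζ v => ¬ Bad R' (v 4) (v 5) (v 6) (v 1) ζ) 0
      (dz_bad hR 5 6 7 2 0).not
  · refine (loc_empty 0).dz.and ?_
    exact DZ.allMem (R := fun ζ v => ¬ Bad R' (v 4) (v 5) (v 6) (v 1) ζ) 1
      (dz_bad hR 5 6 7 2 0).not

end

/-- DM. The image of the measure under the minimal function. -/
theorem pf_DM (hNM : T_NM2.{u}) (hMIF : T_MIF.{u}) : _root_.HD.HV.T_DM.{u} := by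
  intro γ hγ K hK hK0 U hU
  obtain ⟨f, hf, hmin⟩ := hMIF γ hγ K hK0 U hU
  obtain ⟨hint, hne⟩ := hNM γ hγ K hK0 U hU
  have h0 : 0 < K.ord := (Cardinal.isSuccLimit_ord hK0.le).bot_lt
  have hcm := cm_im hγ hU hf h0 hint hne
  have hfun := hf.2.1
  have hNU := hU.inN
  have hNf : NV γ f := nv_f hγ hNU hf.1 hfun
  have hNk : NV γ K.ord.toZFSet := HD.HW.nv_ord hγ _
  refine ⟨im γ K.ord U f, hcm, ?_⟩
  intro R hRd
  obtain ⟨R', hR, hRR⟩ := dr_set hRd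
  -- values of `f`
  have hval : ∀ b ∈ K.ord.toZFSet, ∃ c : Ordinal.{u}, c < K.ord ∧ ZFSet.pair b c.toZFSet ∈ f ∧
      ∀ w, ZFSet.pair b w ∈ f → w = c.toZFSet := by
    intro b hb
    obtain ⟨w, hw, hw'⟩ := hfun.2 b hb
    obtain ⟨c, hc, rfl⟩ := mem_toZFSet_iff.1 (ZFSet.pair_mem_prod.1 (hfun.1 hw)).2
    exact ⟨c, hc, hw, hw'⟩
  have hne' : ∀ x ∈ U, ∃ b ∈ K.ord.toZFSet, b ∈ x := by
    intro x hx
    obtain ⟨a, -, ha, hax⟩ := hne x hx 0 h0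
    exact ⟨a.toZFSet, toZFSet_mem_toZFSet_iff.2 ha, hax⟩
  have hcompl : ∀ x, NV γ x → x ⊆ K.ord.toZFSet → x ∉ U → K.ord.toZFSet \ x ∈ U := by
    intro x hx hxk h
    by_contra h1
    exact h ((hU.ultra x hx hxk).2 h1)
  have hNsb : ∀ η : Ordinal.{u}, NV γ (sb R' K.ord.toZFSet f η.toZFSet) := by
    intro η
    refine HD.HW.nv_of hγ (P := fun z k f η => z ∈ k ∧ ∀ c, ZFSet.pair z c ∈ f → R' c η) ?_
      hNk hNf (HD.HW.nv_ord hγ η) (fun z => ZFSet.mem_sep)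
      fun z hz => nv_el hγ (ZFSet.mem_sep.1 hz).1
    refine (DZ.mem 0 1).and ?_
    refine DZ.all (R := fun c v => ZFSet.pair (v 0) c ∈ v 2 → R' c (v 3)) ?_
    exact (loc_pmem 1 0 3).dz.imp (hR 0 4)
  -- the set of the good points
  have hD : ∀ z, z ∈ ZFSet.sep (fun c => ∀ η ∈ c, ¬ Bad R' K.ord.toZFSet U f c η) K.ord.toZFSet ↔
      z ∈ K.ord.toZFSet ∧ ∀ η ∈ z, ¬ Bad R' K.ord.toZFSet U f z η := fun z => ZFSet.mem_sep
  obtain ⟨D1, hD1⟩ : ∃ D1 : ZFSet.{u}, ∀ z, z ∈ D1 ↔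
      z ∈ K.ord.toZFSet ∧ ∀ η ∈ z, ¬ Bad R' K.ord.toZFSet U f z η := ⟨_, hD⟩
  have hND : NV γ D1 := by
    refine HD.HW.nv_of hγ (P := fun z k U f => z ∈ k ∧ ∀ η ∈ z, ¬ Bad R' k U f z η) ?_
      hNk hNU hNf hD1 fun z hz => nv_el hγ ((hD1 z).1 hz).1
    refine (DZ.mem 0 1).and ?_
    exact DZ.allMem (R := fun η v => ¬ Bad R' (v 1) (v 2) (v 3) (v 0) η) 0
      (dz_bad hR 2 3 4 1 0).not
  by_cases hDim : D1 ∈ im γ K.ord U f
  · refine ⟨{η | sb R' K.ord.toZFSet f η.toZFSet ∈ U}, D1, hDim, fun b hb η hη => ?_⟩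
    have h1 := ((hD1 _).1 hb).2 η.toZFSet (toZFSet_mem_toZFSet_iff.2 hη)
    unfold Bad at h1
    rw [not_not, hRR] at h1
    exact h1
  exfalso
  have hDk : D1 ⊆ K.ord.toZFSet := fun z hz => ((hD1 z).1 hz).1
  have hW : pre K.ord.toZFSet f (K.ord.toZFSet \ D1) ∈ U := by
    by_contra h1
    refine hDim ((hcm.ultra D1 hND hDk).2 fun h2 => h1 (mem_im.1 h2).2.2)
  -- the function `g`
  obtain ⟨g, hg⟩ : ∃ g : ZFSet.{u}, ∀ z, z ∈ g ↔ gP R' z K.ord.toZFSet U f := by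
    refine ⟨ZFSet.sep (fun z => gP R' z K.ord.toZFSet U f)
      (ZFSet.prod K.ord.toZFSet K.ord.toZFSet), fun z => ?_⟩
    rw [ZFSet.mem_sep]
    refine ⟨fun h => h.2, fun h => ⟨?_, h⟩⟩
    obtain ⟨b, c, η, rfl, hb, hbc, h⟩ := h
    refine ZFSet.pair_mem_prod.2 ⟨hb, ?_⟩
    rcases h with ⟨h1, -⟩ | ⟨rfl, -⟩
    · obtain ⟨c', hc', rfl⟩ := mem_toZFSet_iff.1 (ZFSet.pair_mem_prod.1 (hfun.1 hbc)).2
      obtain ⟨η', hη', rfl⟩ := mem_toZFSet_iff.1 h1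
      exact toZFSet_mem_toZFSet_iff.2 (hη'.trans hc')
    · rw [← toZFSet_zero]
      exact toZFSet_mem_toZFSet_iff.2 h0
  -- values of `g`
  have hgv : ∀ b c η : ZFSet.{u}, b ∈ K.ord.toZFSet → ZFSet.pair b c ∈ f →
      (ZFSet.pair b η ∈ g ↔ ((η ∈ c ∧ Bad R' K.ord.toZFSet U f c η ∧
        ∀ ζ ∈ η, ¬ Bad R' K.ord.toZFSet U f c ζ) ∨
        (η = ∅ ∧ ∀ ζ ∈ c, ¬ Bad R' K.ord.toZFSet U f c ζ))) := by
    intro b c η hb hbc
    rw [hg]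
    constructor
    · rintro ⟨b', c', η', h1, -, h2, h3⟩
      obtain ⟨rfl, rfl⟩ := ZFSet.pair_injective h1
      obtain ⟨w, -, hw⟩ := hfun.2 b hb
      rw [show c = c' from (hw c hbc).trans (hw c' h2).symm]
      exact h3
    · intro h
      exact ⟨b, c, η, rfl, hb, hbc, h⟩
  have hgod : NF.ODp U g := by
    refine odp2 (P := fun z U f => gP R' z K.ord.toZFSet U f) ?_ hf.1 hg
    refine DZ.od (R := fun k v => gP R' (v 0) k (v 1) (v 2)) (OD.ordinal K.ord) ?_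
    exact (dz_gP hR).ren fun n => if n = 0 then 1 else if n = 1 then 0 else n
  have hgex : ∀ b ∈ K.ord.toZFSet, ∃ d : Ordinal.{u}, d < K.ord ∧ ZFSet.pair b d.toZFSet ∈ g ∧
      ∀ w, ZFSet.pair b w ∈ g → w = d.toZFSet := by
    intro b hb
    obtain ⟨c, hc, hbc, -⟩ := hval b hb
    by_cases hbad : ∃ η : Ordinal.{u}, η < c ∧ Bad R' K.ord.toZFSet U f c.toZFSet η.toZFSet
    · obtain ⟨η, ⟨h1, h2⟩, h3⟩ := WellFounded.has_min (wellFounded_lt (α := Ordinal.{u}))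
        {η : Ordinal.{u} | η < c ∧ Bad R' K.ord.toZFSet U f c.toZFSet η.toZFSet} hbad
      refine ⟨η, h1.trans hc, (hgv b _ _ hb hbc).2 (Or.inl
        ⟨toZFSet_mem_toZFSet_iff.2 h1, h2, fun ζ hζ => ?_⟩), fun w hw => ?_⟩
      · obtain ⟨ζ', hζ', rfl⟩ := mem_toZFSet_iff.1 hζ
        exact fun h4 => h3 ζ' ⟨hζ'.trans h1, h4⟩ hζ'
      · rcases (hgv b _ _ hb hbc).1 hw with ⟨h4, h5, h6⟩ | ⟨-, h4⟩
        · obtain ⟨w', hw', rfl⟩ := mem_toZFSet_iff.1 h4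
          have h7 : ¬ w' < η := fun h => h3 w' ⟨hw', h5⟩ h
          have h8 : ¬ η < w' := fun h => h6 _ (toZFSet_mem_toZFSet_iff.2 h) h2
          rw [le_antisymm (not_lt.1 h8) (not_lt.1 h7)]
        · exact absurd h2 (h4 _ (toZFSet_mem_toZFSet_iff.2 h1))
    · have hgood : ∀ ζ ∈ c.toZFSet, ¬ Bad R' K.ord.toZFSet U f c.toZFSet ζ := by
        intro ζ hζ h
        obtain ⟨ζ', hζ', rfl⟩ := mem_toZFSet_iff.1 hζ
        exact hbad ⟨ζ', hζ', h⟩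
      refine ⟨0, h0, (hgv b _ _ hb hbc).2 (Or.inr ⟨toZFSet_zero, hgood⟩), fun w hw => ?_⟩
      rcases (hgv b _ _ hb hbc).1 hw with ⟨h4, h5, -⟩ | ⟨h4, -⟩
      · exact absurd h5 (hgood w h4)
      · rw [h4, toZFSet_zero]
  have hgfun : ZFSet.IsFunc K.ord.toZFSet K.ord.toZFSet g := by
    constructor
    · intro z hz
      obtain ⟨b, c, η, rfl, hb, hbc, h⟩ := (hg z).1 hz
      obtain ⟨d, hd, -, h2⟩ := hgex b hb
      rw [h2 η hz]
      exact ZFSet.pair_mem_prod.2 ⟨hb, toZFSet_mem_toZFSet_iff.2 hd⟩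
    · intro b hb
      obtain ⟨d, -, h1, h2⟩ := hgex b hb
      exact ⟨d.toZFSet, h1, h2⟩
  have hNg : NV γ g := nv_f hγ hNU hgod hgfun
  -- at the points of `W` the value of `g` is bad
  have hWb : ∀ b ∈ pre K.ord.toZFSet f (K.ord.toZFSet \ D1), ∀ c d : Ordinal.{u},
      ZFSet.pair b c.toZFSet ∈ f → ZFSet.pair b d.toZFSet ∈ g →
        d < c ∧ Bad R' K.ord.toZFSet U f c.toZFSet d.toZFSet := by
    intro b hb c d hbc hbd
    obtain ⟨hbk, hb1⟩ := mem_pre.1 hb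
    have h1 := (ZFSet.mem_sdiff.1 (hb1 _ hbc))
    rcases (hgv b _ _ hbk hbc).1 hbd with ⟨h4, h5, -⟩ | ⟨-, h4⟩
    · exact ⟨toZFSet_mem_toZFSet_iff.1 h4, h5⟩
    · exact absurd ((hD1 _).2 ⟨h1.1, h4⟩) h1.2
  -- `g` is less than `f`
  have hLT : LTf K.ord U g f := by
    refine hU.up _ hW _ ?_ ?_ fun z hz => (ZFSet.mem_sep.1 hz).1
    · refine HD.HW.nv_of hγ (P := fun z k g f => z ∈ k ∧ ∀ c d, ZFSet.pair z c ∈ g →
        ZFSet.pair z d ∈ f → c ∈ d) ?_ hNk hNg hNf (fun z => ?_)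
        fun z hz => nv_el hγ (ZFSet.mem_sep.1 hz).1
      · refine (DZ.mem 0 1).and ?_
        refine DZ.all (R := fun c v => ∀ d, ZFSet.pair (v 0) c ∈ v 2 →
          ZFSet.pair (v 0) d ∈ v 3 → c ∈ d) ?_
        refine DZ.all (R := fun d v => ZFSet.pair (v 1) (v 0) ∈ v 3 →
          ZFSet.pair (v 1) d ∈ v 4 → v 0 ∈ d) ?_
        exact (loc_pmem 2 1 4).dz.imp ((loc_pmem 2 0 5).dz.imp (DZ.mem 1 0))
      · rw [ZFSet.mem_sep]
        refine and_congr Iff.rfl ⟨fun h c d hc hd => ?_, fun h c d hc hd => ?_⟩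
        · obtain ⟨c', -, rfl⟩ := mem_toZFSet_iff.1 (ZFSet.pair_mem_prod.1 (hgfun.1 hc)).2
          obtain ⟨d', -, rfl⟩ := mem_toZFSet_iff.1 (ZFSet.pair_mem_prod.1 (hfun.1 hd)).2
          exact toZFSet_mem_toZFSet_iff.2 (h c' d' hc hd)
        · exact toZFSet_mem_toZFSet_iff.1 (h _ _ hc hd)
    · intro b hb
      refine ZFSet.mem_sep.2 ⟨(mem_pre.1 hb).1, fun c d hc hd => ?_⟩
      exact (hWb b hb d c hd hc).1
  -- so `g` is bounded on a set in `U`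
  obtain ⟨c, hc, hcU⟩ : ∃ c < K.ord, (K.ord.toZFSet).sep
      (fun b => ∀ d : Ordinal.{u}, ZFSet.pair b d.toZFSet ∈ g → c < d) ∉ U := by
    by_contra h1
    push Not at h1
    exact hmin g ⟨hgod, hgfun, h1⟩ hLT
  have hNc : NV γ ((K.ord.toZFSet).sep
      (fun b => ∀ d : Ordinal.{u}, ZFSet.pair b d.toZFSet ∈ g → c < d)) := by
    refine HD.HW.nv_of hγ (P := fun z k g c => z ∈ k ∧ ∀ d, ZFSet.pair z d ∈ g → c ∈ d) ?_
      hNk hNg (HD.HW.nv_ord hγ c) (fun z => ?_)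
      fun z hz => nv_el hγ (ZFSet.mem_sep.1 hz).1
    · refine (DZ.mem 0 1).and ?_
      refine DZ.all (R := fun d v => ZFSet.pair (v 0) d ∈ v 2 → v 3 ∈ d) ?_
      exact (loc_pmem 1 0 3).dz.imp (DZ.mem 4 0)
    · rw [ZFSet.mem_sep]
      refine and_congr Iff.rfl ⟨fun h d hd => ?_, fun h d hd => ?_⟩
      · obtain ⟨d', -, rfl⟩ := mem_toZFSet_iff.1 (ZFSet.pair_mem_prod.1 (hgfun.1 hd)).2
        exact toZFSet_mem_toZFSet_iff.2 (h d' hd)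
      · exact toZFSet_mem_toZFSet_iff.1 (h _ hd)
  have hcU' := hcompl _ hNc (fun z hz => (ZFSet.mem_sep.1 hz).1) hcU
  -- the sets where `g` is not `η`
  have hNE : ∀ η : Ordinal.{u}, NV γ ((K.ord.toZFSet).sep
      (fun b => ZFSet.pair b η.toZFSet ∉ g)) := by
    intro η
    refine HD.HW.nv_of hγ (P := fun z k g η => z ∈ k ∧ ZFSet.pair z η ∉ g) ?_
      hNk hNg (HD.HW.nv_ord hγ η) (fun z => ZFSet.mem_sep)
      fun z hz => nv_el hγ (ZFSet.mem_sep.1 hz).1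
    exact (DZ.mem 0 1).and (loc_pmem 0 3 2).dz.not
  obtain ⟨η, hηE⟩ : ∃ η : Ordinal.{u}, (K.ord.toZFSet).sep
      (fun b => ZFSet.pair b η.toZFSet ∉ g) ∉ U := by
    by_contra hcon
    push Not at hcon
    have hc1 : Order.succ c < K.ord := (Cardinal.isSuccLimit_ord hK0.le).succ_lt hc
    -- the sequence
    have hmem : ∀ z, z ∈ ZFSet.sep (fun p => ∃ η x, p = ZFSet.pair η x ∧
        x = (K.ord.toZFSet).sep (fun b => ZFSet.pair b η ∉ g))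
        (ZFSet.prod (Order.succ c).toZFSet U) ↔ ∃ η x, z = ZFSet.pair η x ∧
          η ∈ (Order.succ c).toZFSet ∧ x = (K.ord.toZFSet).sep (fun b => ZFSet.pair b η ∉ g) := by
      intro z
      rw [ZFSet.mem_sep]
      constructor
      · rintro ⟨h1, η, x, rfl, h2⟩
        exact ⟨η, x, rfl, (ZFSet.pair_mem_prod.1 h1).1, h2⟩
      · rintro ⟨η, x, rfl, h1, h2⟩
        refine ⟨ZFSet.pair_mem_prod.2 ⟨h1, ?_⟩, η, x, rfl, h2⟩
        obtain ⟨η', -, rfl⟩ := mem_toZFSet_iff.1 h1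
        rw [h2]
        exact hcon η'
    have hNS : NV γ (ZFSet.sep (fun p => ∃ η x, p = ZFSet.pair η x ∧
        x = (K.ord.toZFSet).sep (fun b => ZFSet.pair b η ∉ g))
        (ZFSet.prod (Order.succ c).toZFSet U)) := by
      refine HD.HW.nv_of hγ (P := fun z k g c => ∃ η x, z = ZFSet.pair η x ∧ η ∈ c ∧
        ∀ b, (b ∈ x ↔ b ∈ k ∧ ZFSet.pair b η ∉ g)) ?_ hNk hNg
        (HD.HW.nv_ord hγ (Order.succ c)) (fun z => ?_) fun z hz => ?_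
      · refine DZ.ex (R := fun η v => ∃ x, v 0 = ZFSet.pair η x ∧ η ∈ v 3 ∧
          ∀ b, (b ∈ x ↔ b ∈ v 1 ∧ ZFSet.pair b η ∉ v 2)) ?_
        refine DZ.ex (R := fun x v => v 1 = ZFSet.pair (v 0) x ∧ v 0 ∈ v 4 ∧
          ∀ b, (b ∈ x ↔ b ∈ v 2 ∧ ZFSet.pair b (v 0) ∉ v 3)) ?_
        refine (loc_pair 2 1 0).dz.and ((DZ.mem 1 5).and ?_)
        refine DZ.all (R := fun b v => (b ∈ v 0 ↔ b ∈ v 3 ∧ ZFSet.pair b (v 1) ∉ v 4)) ?_
        exact (DZ.mem 0 1).iff ((DZ.mem 0 4).and (loc_pmem 0 2 5).dz.not)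
      · rw [hmem]
        constructor
        · rintro ⟨η, x, rfl, h1, h2⟩
          refine ⟨η, x, rfl, h1, fun b => ?_⟩
          rw [h2, ZFSet.mem_sep]
        · rintro ⟨η, x, rfl, h1, h2⟩
          refine ⟨η, x, rfl, h1, ?_⟩
          ext b
          rw [h2 b, ZFSet.mem_sep]
      · obtain ⟨η, x, rfl, h1, h2⟩ := (hmem z).1 hz
        obtain ⟨η', -, rfl⟩ := mem_toZFSet_iff.1 h1
        rw [h2]
        exact HD.HW.nv_pair hγ (HD.HW.nv_ord hγ η') (hNE η')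
    have h1 := hU.compl _ hc1 _ hNS ⟨fun p hp => (ZFSet.mem_sep.1 hp).1, fun z hz => by
      refine ⟨(K.ord.toZFSet).sep (fun b => ZFSet.pair b z ∉ g),
        (hmem _).2 ⟨z, _, rfl, hz, rfl⟩, fun y hy => ?_⟩
      obtain ⟨η, x, h2, -, h3⟩ := (hmem _).1 hy
      obtain ⟨rfl, rfl⟩ := ZFSet.pair_injective h2
      exact h3⟩
    obtain ⟨b, hbk, hb⟩ := hne' _ (hint _ h1 _ hcU')
    rw [ZFSet.mem_inter, ZFSet.mem_sep, ZFSet.mem_sdiff] at hb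
    obtain ⟨⟨-, hb1⟩, -, hb2⟩ := hb
    obtain ⟨d, -, hd, hd'⟩ := hgex b hbk
    have hdc : d ≤ c := by
      by_contra h2
      refine hb2 (ZFSet.mem_sep.2 ⟨hbk, fun d' hd1 => ?_⟩)
      rw [toZFSet_injective (hd' _ hd1)]
      exact not_le.1 h2
    have h2 := hb1 d.toZFSet _ ((hmem _).2 ⟨d.toZFSet, _, rfl,
      toZFSet_mem_toZFSet_iff.2 (lt_succ_of_le hdc), rfl⟩)
    exact (ZFSet.mem_sep.1 h2).2 hd
  have hηU := hcompl _ (hNE η) (fun z hz => (ZFSet.mem_sep.1 hz).1) hηE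
  have hZ := hint _ hηU _ hW
  -- the points of `Z`
  have hZb : ∀ b ∈ K.ord.toZFSet, b ∈ (K.ord.toZFSet \ (K.ord.toZFSet).sep
      (fun b => ZFSet.pair b η.toZFSet ∉ g)) ∩ pre K.ord.toZFSet f (K.ord.toZFSet \ D1) →
      ∃ c : Ordinal.{u}, ZFSet.pair b c.toZFSet ∈ f ∧
        (∀ w, ZFSet.pair b w ∈ f → w = c.toZFSet) ∧
        Bad R' K.ord.toZFSet U f c.toZFSet η.toZFSet := by
    intro b hbk hb
    rw [ZFSet.mem_inter, ZFSet.mem_sdiff, ZFSet.mem_sep] at hb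
    obtain ⟨⟨-, h1⟩, h2⟩ := hb
    have h3 : ZFSet.pair b η.toZFSet ∈ g := by
      by_contra h4
      exact h1 ⟨hbk, h4⟩
    obtain ⟨c, -, hbc, hc'⟩ := hval b hbk
    exact ⟨c, hbc, hc', (hWb b h2 c η hbc h3).2⟩
  by_cases hsb : sb R' K.ord.toZFSet f η.toZFSet ∈ U
  · obtain ⟨b, hbk, hb⟩ := hne' _ (hint _ hZ _ hsb)
    rw [ZFSet.mem_inter] at hb
    obtain ⟨c, hbc, -, hbad⟩ := hZb b hbk hb.1
    exact hbad ⟨fun _ => hsb, fun _ => (ZFSet.mem_sep.1 hb.2).2 _ hbc⟩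
  · have h1 := hcompl _ (hNsb η) (fun z hz => (ZFSet.mem_sep.1 hz).1) hsb
    obtain ⟨b, hbk, hb⟩ := hne' _ (hint _ hZ _ h1)
    rw [ZFSet.mem_inter, ZFSet.mem_sdiff] at hb
    obtain ⟨c, hbc, hc', hbad⟩ := hZb b hbk hb.1
    refine hbad ⟨fun h2 => absurd (ZFSet.mem_sep.2 ⟨hbk, fun w hw => ?_⟩) hb.2.2,
      fun h2 => absurd h2 hsb⟩
    rw [hc' w hw]
    exact h2

end Pool.Agent.H17.HV
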