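import Pool.Agent.H97.HV.Targets6
import Pool.Agent.H97.HV.WDefs
import Pool.Agent.H97.HV.Fin

/-!
# The image of a measure of HOD(V_ γ) under a function (MP_e37c09_lc, half of row DM)
-/

open Ordinal Cardinal Order Set
open scoped ZFSet

universe u

namespace Pool.Agent.H17.HV

open _root_.HD HD.PRK HD.HV

/-- the preimage of `x` under the function `f` -/
noncomputable def pre (k f x : ZFSet.{u}) : ZFSet.{u} :=
  ZFSet.sep (fun b => ∀ c, ZFSet.pair b c ∈ f → c ∈ x) k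

theorem mem_pre {k f x z : ZFSet.{u}} :
    z ∈ pre k f x ↔ z ∈ k ∧ ∀ c, ZFSet.pair z c ∈ f → c ∈ x := ZFSet.mem_sep

theorem dz_pre (i j k l : ℕ) : DZ.{u} fun v => v i = pre (v j) (v k) (v l) := by
  have h : DZ.{u} fun v => ∀ b, (b ∈ v i ↔ b ∈ v j ∧
      ∀ c, ZFSet.pair b c ∈ v k → c ∈ v l) := by
    refine DZ.all (R := fun b v => (b ∈ v i ↔ b ∈ v j ∧
      ∀ c, ZFSet.pair b c ∈ v k → c ∈ v l)) ?_
    refine (DZ.mem 0 (i + 1)).iff ((DZ.mem 0 (j + 1)).and ?_)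
    refine DZ.all (R := fun c v => ZFSet.pair (v 0) c ∈ v (k + 1) → c ∈ v (l + 1)) ?_
    exact (loc_pmem 1 0 (k + 2)).dz.imp (DZ.mem 0 (l + 2))
  refine h.congr fun v => ?_
  constructor
  · intro e b
    rw [e]
    exact mem_pre
  · intro e
    ext b
    rw [e b]
    exact mem_pre.symm

/-- sets which are definable from an element of the class -/
theorem nv_odp {γ : Ordinal.{u}} {U x : ZFSet.{u}} (hU : NV γ U) (h : NF.ODp U x)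
    (hel : ∀ z ∈ x, NV γ z) : NV γ x := by
  obtain ⟨a, ha, h1⟩ := (HD.HW.nv_iff.1 hU).1
  exact HD.HW.nv_iff.2 ⟨⟨a, ha, Pool.Agent.H97.HV.odp_trans h1 h⟩, hel⟩

theorem nv_el {γ κ : Ordinal.{u}} (hγ : IsSuccLimit γ) {z : ZFSet.{u}} (hz : z ∈ κ.toZFSet) :
    NV γ z := HD.HW.nv_tra _ (HD.HW.nv_ord hγ κ) _ hz

theorem nv_f {γ κ : Ordinal.{u}} (hγ : IsSuccLimit γ) {U f : ZFSet.{u}} (hU : NV γ U)
    (h : NF.ODp U f) (hf : ZFSet.IsFunc κ.toZFSet κ.toZFSet f) : NV γ f := by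
  refine nv_odp hU h fun z hz => ?_
  obtain ⟨a, ha, b, hb, rfl⟩ := ZFSet.mem_prod.1 (hf.1 hz)
  exact HD.HW.nv_pair hγ (nv_el hγ ha) (nv_el hγ hb)

theorem nv_pre {γ κ : Ordinal.{u}} (hγ : IsSuccLimit γ) {f x : ZFSet.{u}} (hf : NV γ f)
    (hx : NV γ x) : NV γ (pre κ.toZFSet f x) := by
  refine HD.HW.nv_of hγ (P := fun z k f x => z ∈ k ∧ ∀ c, ZFSet.pair z c ∈ f → c ∈ x) ?_
    (HD.HW.nv_ord hγ κ) hf hx (fun z => mem_pre) fun z hz => nv_el hγ (mem_pre.1 hz).1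
  refine (DZ.mem 0 1).and ?_
  refine DZ.all (R := fun c v => ZFSet.pair (v 0) c ∈ v 2 → c ∈ v 3) ?_
  exact (loc_pmem 1 0 3).dz.imp (DZ.mem 0 4)

theorem pre_compl {κ f x : ZFSet.{u}} (hf : ZFSet.IsFunc κ κ f) :
    pre κ f (κ \ x) = κ \ pre κ f x := by
  ext z
  rw [mem_pre, ZFSet.mem_sdiff, mem_pre]
  constructor
  · rintro ⟨hz, h⟩
    obtain ⟨w, hw, -⟩ := hf.2 z hz
    refine ⟨hz, fun h1 => ?_⟩
    exact (ZFSet.mem_sdiff.1 (h w hw)).2 (h1.2 w hw)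
  · rintro ⟨hz, h⟩
    refine ⟨hz, fun c hc => ?_⟩
    refine ZFSet.mem_sdiff.2 ⟨(ZFSet.pair_mem_prod.1 (hf.1 hc)).2, fun hcx => h ⟨hz, ?_⟩⟩
    intro c' hc'
    obtain ⟨w, -, hw⟩ := hf.2 z hz
    rw [hw c' hc', ← hw c hc]
    exact hcx

theorem nv_sdiff {γ κ : Ordinal.{u}} (hγ : IsSuccLimit γ) {x : ZFSet.{u}} (hx : NV γ x) :
    NV γ (κ.toZFSet \ x) := by
  refine HD.HW.nv_of hγ (P := fun z k x _ => z ∈ k ∧ z ∉ x) ?_ (HD.HW.nv_ord hγ κ) hx hx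
    (fun z => ZFSet.mem_sdiff) fun z hz => nv_el hγ (ZFSet.mem_sdiff.1 hz).1
  exact (DZ.mem 0 1).and (DZ.mem 0 2).not

/-- the image of `U` under `f` -/
noncomputable def im (γ κ : Ordinal.{u}) (U f : ZFSet.{u}) : ZFSet.{u} :=
  ZFSet.sep (fun x => NV γ x ∧ pre κ.toZFSet f x ∈ U) (ZFSet.powerset κ.toZFSet)

theorem mem_im {γ κ : Ordinal.{u}} {U f x : ZFSet.{u}} :
    x ∈ im γ κ U f ↔ x ⊆ κ.toZFSet ∧ NV γ x ∧ pre κ.toZFSet f x ∈ U := by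
  unfold im
  rw [ZFSet.mem_sep, ZFSet.mem_powerset]

theorem nv_im {γ κ : Ordinal.{u}} (hγ : IsSuccLimit γ) {U f : ZFSet.{u}} (hU : NV γ U)
    (hf : NV γ f) : NV γ (im γ κ U f) := by
  refine HD.HW.nv_of hγ (P := fun z k U f => z ⊆ k ∧ NV γ z ∧ ∃ y, y = pre k f z ∧ y ∈ U) ?_
    (HD.HW.nv_ord hγ κ) hU hf (fun z => ?_) fun z hz => (mem_im.1 hz).2.1
  · refine (Loc.sub 0 1).dz.and ((HD.HW.dz_nv γ 0).and ?_)
    refine DZ.ex (R := fun y v => y = pre (v 1) (v 3) (v 0) ∧ y ∈ v 2) ?_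
    exact (dz_pre 0 2 4 1).and (DZ.mem 0 3)
  · rw [mem_im]
    simp

/-- The image of a measure is a measure. -/
theorem cm_im {γ : Ordinal.{u}} (hγ : IsSuccLimit γ) {κ : Ordinal.{u}} {U f : ZFSet.{u}}
    (hU : CMeas (NV γ) κ U) (hf : UBf κ U f) (h0 : 0 < κ)
    (hint : ∀ x ∈ U, ∀ y ∈ U, x ∩ y ∈ U)
    (hne : ∀ x ∈ U, ∀ b < κ, ∃ a : Ordinal.{u}, b ≤ a ∧ a < κ ∧ a.toZFSet ∈ x) :
    CMeas (NV γ) κ (im γ κ U f) := by
  have hNf : NV γ f := nv_f hγ hU.inN hf.1 hf.2.1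
  have hfun := hf.2.1
  refine ⟨nv_im hγ hU.inN hNf, fun x hx => (mem_im.1 hx).1, ?_, ?_, ?_, ?_⟩
  · intro x hx hxκ
    have h1 := hU.ultra (pre κ.toZFSet f x) (nv_pre hγ hNf hx) fun z hz => (mem_pre.1 hz).1
    have h2 : pre κ.toZFSet f (κ.toZFSet \ x) = κ.toZFSet \ pre κ.toZFSet f x := pre_compl hfun
    constructor
    · intro h h3
      have h4 := (mem_im.1 h3).2.2
      rw [h2] at h4
      exact h1.1 (mem_im.1 h).2.2 h4
    · intro h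
      refine mem_im.2 ⟨hxκ, hx, h1.2 fun h3 => h ?_⟩
      refine mem_im.2 ⟨fun z hz => (ZFSet.mem_sdiff.1 hz).1, nv_sdiff hγ hx, ?_⟩
      rw [h2]
      exact h3
  · intro x hx y hy hxy hyκ
    refine mem_im.2 ⟨hyκ, hy, ?_⟩
    refine hU.up _ (mem_im.1 hx).2.2 _ (nv_pre hγ hNf hy) ?_ fun z hz => (mem_pre.1 hz).1
    intro z hz
    obtain ⟨h1, h2⟩ := mem_pre.1 hz
    exact mem_pre.2 ⟨h1, fun c hc => hxy (h2 c hc)⟩
  · intro a ha h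
    have h1 := hint _ (mem_im.1 h).2.2 _ (hf.2.2 a ha)
    obtain ⟨b, -, -, hb⟩ := hne _ h1 0 h0
    rw [ZFSet.mem_inter, mem_pre, ZFSet.mem_sep] at hb
    obtain ⟨⟨hb1, hb2⟩, -, hb3⟩ := hb
    obtain ⟨w, hw, -⟩ := hfun.2 _ hb1
    have h2 := ZFSet.mem_singleton.1 (hb2 w hw)
    rw [show w = a.toZFSet from h2] at hw
    exact lt_irrefl a (hb3 a hw)
  · intro τ hτ h hN hh
    have hpre : ∀ a x, ZFSet.pair a x ∈ h → a ∈ τ.toZFSet ∧ pre κ.toZFSet f x ∈ U := by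
      intro a x hax
      obtain ⟨h1, h2⟩ := ZFSet.pair_mem_prod.1 (hh.1 hax)
      exact ⟨h1, (mem_im.1 h2).2.2⟩
    -- the sequence of the preimages
    have hmem : ∀ a y, ZFSet.pair a y ∈ ZFSet.sep (fun p => ∃ a x, ZFSet.pair a x ∈ h ∧
        p = ZFSet.pair a (pre κ.toZFSet f x)) (ZFSet.prod τ.toZFSet U) ↔
        ∃ x, ZFSet.pair a x ∈ h ∧ y = pre κ.toZFSet f x := by
      intro a y
      rw [ZFSet.mem_sep]
      constructor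
      · rintro ⟨-, a', x, h1, h2⟩
        obtain ⟨rfl, rfl⟩ := ZFSet.pair_injective h2
        exact ⟨x, h1, rfl⟩
      · rintro ⟨x, h1, rfl⟩
        exact ⟨ZFSet.pair_mem_prod.2 (hpre a x h1), a, x, h1, rfl⟩
    have hN' : NV γ (ZFSet.sep (fun p => ∃ a x, ZFSet.pair a x ∈ h ∧
        p = ZFSet.pair a (pre κ.toZFSet f x)) (ZFSet.prod τ.toZFSet U)) := by
      refine HD.HW.nv_of hγ (P := fun z h f k => ∃ a x, ZFSet.pair a x ∈ h ∧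
        ∃ y, y = pre k f x ∧ z = ZFSet.pair a y) ?_ hN hNf (HD.HW.nv_ord hγ κ)
        (fun z => ?_) fun z hz => ?_
      · refine DZ.ex (R := fun a v => ∃ x, ZFSet.pair a x ∈ v 1 ∧
          ∃ y, y = pre (v 3) (v 2) x ∧ v 0 = ZFSet.pair a y) ?_
        refine DZ.ex (R := fun x v => ZFSet.pair (v 0) x ∈ v 2 ∧
          ∃ y, y = pre (v 4) (v 3) x ∧ v 1 = ZFSet.pair (v 0) y) ?_
        refine (loc_pmem 1 0 3).dz.and ?_
        refine DZ.ex (R := fun y v => y = pre (v 5) (v 4) (v 0) ∧ v 2 = ZFSet.pair (v 1) y) ?_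
        exact (dz_pre 0 6 5 1).and (loc_pair 3 2 0).dz
      · rw [ZFSet.mem_sep]
        constructor
        · rintro ⟨-, a, x, h1, rfl⟩
          exact ⟨a, x, h1, _, rfl, rfl⟩
        · rintro ⟨a, x, h1, _, rfl, rfl⟩
          exact ⟨ZFSet.pair_mem_prod.2 (hpre a x h1), a, x, h1, rfl⟩
      · obtain ⟨h1, a, x, h2, rfl⟩ := ZFSet.mem_sep.1 hz
        obtain ⟨h3, h4⟩ := hpre a x h2
        exact HD.HW.nv_pair hγ (nv_el hγ h3) (HD.HW.nv_tra _ hU.inN _ h4)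
    have h1 := hU.compl τ hτ _ hN' ⟨fun p hp => (ZFSet.mem_sep.1 hp).1, fun z hz => by
      obtain ⟨x, hx, hx'⟩ := hh.2 z hz
      refine ⟨pre κ.toZFSet f x, (hmem _ _).2 ⟨x, hx, rfl⟩, fun y hy => ?_⟩
      obtain ⟨x', h1, rfl⟩ := (hmem _ _).1 hy
      rw [hx' x' h1]⟩
    refine mem_im.2 ⟨fun z hz => (ZFSet.mem_sep.1 hz).1, ?_, ?_⟩
    · refine HD.HW.nv_of hγ (P := fun z h k _ => z ∈ k ∧ ∀ a x, ZFSet.pair a x ∈ h → z ∈ x) ?_
        hN (HD.HW.nv_ord hγ κ) hN (fun z => ZFSet.mem_sep)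
        fun z hz => nv_el hγ (ZFSet.mem_sep.1 hz).1
      refine (DZ.mem 0 2).and ?_
      refine DZ.all (R := fun a v => ∀ x, ZFSet.pair a x ∈ v 1 → v 0 ∈ x) ?_
      refine DZ.all (R := fun x v => ZFSet.pair (v 0) x ∈ v 2 → v 1 ∈ x) ?_
      exact (loc_pmem 1 0 3).dz.imp (DZ.mem 2 0)
    · have e : pre κ.toZFSet f (ZFSet.sep (fun b => ∀ a x, ZFSet.pair a x ∈ h → b ∈ x)
          κ.toZFSet) = ZFSet.sep (fun b => ∀ a x, ZFSet.pair a x ∈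
          ZFSet.sep (fun p => ∃ a x, ZFSet.pair a x ∈ h ∧
            p = ZFSet.pair a (pre κ.toZFSet f x)) (ZFSet.prod τ.toZFSet U) → b ∈ x)
          κ.toZFSet := by
        ext z
        rw [mem_pre, ZFSet.mem_sep]
        constructor
        · rintro ⟨hz, h2⟩
          refine ⟨hz, fun a y hy => ?_⟩
          obtain ⟨x, h3, rfl⟩ := (hmem a y).1 hy
          exact mem_pre.2 ⟨hz, fun c hc => (ZFSet.mem_sep.1 (h2 c hc)).2 a x h3⟩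
        · rintro ⟨hz, h2⟩
          refine ⟨hz, fun c hc => ?_⟩
          refine ZFSet.mem_sep.2 ⟨(ZFSet.pair_mem_prod.1 (hfun.1 hc)).2, fun a x h3 => ?_⟩
          exact (mem_pre.1 (h2 a _ ((hmem a _).2 ⟨x, h3, rfl⟩))).2 c hc
      rw [e]
      exact h1

end Pool.Agent.H17.HV
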