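import Pool.Agent.H97.HV.Targets2

/-!
# MP_e37c09_lc: almost all sections are in small ordinal definable sets
-/

open Ordinal Cardinal Order Set
open scoped ZFSet

universe u

namespace Pool.Agent.H17.HV

open _root_.HD HD.PRK HD.HV

theorem od_prod {a b : ZFSet.{u}} (ha : OD a) (hb : OD b) : OD (ZFSet.prod a b) := by
  refine OD.of_dz ?_
  refine DZ.od (R := fun c v => v 0 = ZFSet.prod c b) ha ?_
  refine DZ.od (R := fun c v => v 1 = ZFSet.prod (v 0) c) hb ?_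
  exact (loc_prod 2 1 0).dz

theorem od_pow {b : ZFSet.{u}} (hb : OD b) : OD (ZFSet.powerset b) := by
  refine OD.of_mem (P := fun v => v 0 ⊆ b) ?_ fun v => ?_
  · exact DZ.od (R := fun b v => v 0 ⊆ b) hb (Loc.sub 1 0).dz
  · rw [ZFSet.mem_powerset]

/-- the sections of `F` at many `x` agree with `R` on `Q` -/
def PQ (μ κ F Q R : ZFSet.{u}) : Prop :=
  μ.IsOrdinal ∧ κ.IsOrdinal ∧ PosX μ.rank κ.rank fun x => ∀ w ∈ Q, (ZFSet.pair x w ∈ F ↔ w ∈ R)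

theorem loc_PQ (i j k l m : ℕ) : Loc.{u} fun v => PQ (v i) (v j) (v k) (v l) (v m) := by
  have h1 : Loc.{u} fun v => PQ (v 0) (v 1) (v 2) (v 3) (v 4) := by
    refine Pool.Agent.H97.PRK.a_LPX
      (fun x v => ∀ w ∈ v 3, (ZFSet.pair x w ∈ v 2 ↔ w ∈ v 4)) ?_ 0 1
    refine Loc.allMem (R := fun w v => ZFSet.pair (v 0) w ∈ v 3 ↔ w ∈ v 5) 4 ?_
    exact (loc_pmem 1 0 4).iff (Loc.mem 0 6)
  exact h1.ren fun n => if n = 0 then i else if n = 1 then j else if n = 2 then k else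
    if n = 3 then l else m

/-- the predicate in the definition of `Z` -/
def QV (m W P μ κ F R : ZFSet.{u}) : Prop :=
  ∀ n ∈ m, ∀ Q ∈ P, Q = ZFSet.prod n W → PQ μ κ F Q R

theorem loc_QV : Loc.{u} fun v => QV (v 0) (v 1) (v 2) (v 3) (v 4) (v 5) (v 6) := by
  refine Loc.allMem (R := fun n v => ∀ Q ∈ v 2, Q = ZFSet.prod n (v 1) →
    PQ (v 3) (v 4) (v 5) Q (v 6)) 0 ?_
  refine Loc.allMem (R := fun Q v => Q = ZFSet.prod (v 0) (v 2) →
    PQ (v 4) (v 5) (v 6) Q (v 7)) 3 ?_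
  exact (loc_prod 0 1 3).imp (loc_PQ 5 6 7 0 8)

theorem dz_QV {m W P μ κ F : ZFSet.{u}} (hm : OD m) (hW : OD W) (hP : OD P) (hμ : OD μ)
    (hκ : OD κ) (hF : OD F) : DZ.{u} fun v => QV m W P μ κ F (v 0) := by
  refine DZ.od (R := fun c v => QV c W P μ κ F (v 0)) hm ?_
  refine DZ.od (R := fun c v => QV (v 0) c P μ κ F (v 1)) hW ?_
  refine DZ.od (R := fun c v => QV (v 1) (v 0) c μ κ F (v 2)) hP ?_
  refine DZ.od (R := fun c v => QV (v 2) (v 1) (v 0) c κ F (v 3)) hμ ?_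
  refine DZ.od (R := fun c v => QV (v 3) (v 2) (v 1) (v 0) c F (v 4)) hκ ?_
  refine DZ.od (R := fun c v => QV (v 4) (v 3) (v 2) (v 1) (v 0) c (v 5)) hF ?_
  exact (loc_QV.ren fun n => if n = 6 then 6 else 5 - n).dz

theorem posX_mono {μ ρ : Ordinal.{u}} {P Q : ZFSet.{u} → Prop} (h : ∀ x, P x → Q x)
    (hP : PosX μ ρ P) : PosX μ ρ Q := fun C hC => by
  obtain ⟨x, hx, h1⟩ := hP C hC
  exact ⟨x, hx, h x h1⟩

theorem pcv_of {μ ρ : Ordinal.{u}} {F x y : ZFSet.{u}} {n : Ordinal.{u}} (h : AgV F x y n)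
    (hy : PcV μ ρ F y n) : PcV μ ρ F x n :=
  posX_mono (fun _ hz k hk a => (hz k hk a).trans (h k hk a).symm) hy

/-- L3V. Almost all sections are in small ordinal definable sets. -/
theorem pf_L3V (h0 : T_LAV.{u}) (h1 : T_TWV.{u}) (h2 : T_GDV.{u}) (h3 : T_BRV.{u}) :
    T_L3V.{u} := by
  have _ := h0
  intro δ hδ hA D K hδD hK hδK μ hμ hμ0 l hl F hF hreg hval hdom
  obtain ⟨η, -, θ, j, hj⟩ := HD.All.xa δ hδ 0
  obtain ⟨D', hD', hDr, hDs, hD0⟩ := HD.All.xb δ η θ j hj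
  obtain rfl : D = D' := Cardinal.ord_injective (hδD.symm.trans hD')
  subst hδD
  have hDK : D < K := Cardinal.ord_lt_ord.1 hδK
  have hK0 : ℵ₀ < K := hD0.trans hDK
  have hgd := h2 D.ord hδ hA K hK hδK μ hμ hμ0 l hl F hF hval
  -- almost all classes are positive
  have hnull : ∀ n < K.ord, ¬ PosX μ K.ord fun x => ¬ PcV μ K.ord F x n := by
    intro n hn hP
    obtain ⟨τ, -, g, hg1, hg2⟩ := hgd n hn
    exact hg2 (posX_mono (fun x hx i hi h => hx (pcv_of h (hg1 i hi))) hP)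
  obtain ⟨C, hC, hCP⟩ := Pool.Agent.H97.PRK.a_NU2 μ K hK hK0
    (fun n x => ¬ PcV μ K.ord F x n) hnull
  refine ⟨C ∩ {b | IsSuccLimit b}, Pool.Agent.H54.CL.clb_inter hK0 hK hC
    (Pool.Agent.H17.PRK.l3_lim hK0), ?_⟩
  intro x hx
  -- the least element of `x`
  have hne : ({a : Ordinal.{u} | a.toZFSet ∈ x}).Nonempty := by
    obtain ⟨z, hz⟩ := hx.ne
    obtain ⟨a, _, _, _, rfl⟩ := hx.mem z hz
    exact ⟨a, hz⟩
  obtain ⟨m, hmx, hmin⟩ := WellFounded.has_min (wellFounded_lt (α := Ordinal.{u})) _ hne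
  have hmx' : m.toZFSet ∈ x := hmx
  obtain ⟨a, ha, haC, _, hma⟩ := hx.mem _ hmx'
  have hmeq : m = a := toZFSet_injective hma
  subst hmeq
  have hlim : IsSuccLimit m := haC.2
  have hsm : SmS μ K.ord C x := by
    refine ⟨hx.ne, fun z hz => ?_, hx.few⟩
    obtain ⟨a, h1, h2, h3, h4⟩ := hx.mem z hz
    exact ⟨a, h1, h2.1, h3, h4⟩
  have hpos : ∀ n < m, PcV μ K.ord F x n := by
    intro n hn
    refine not_not.1 (hCP x hsm n ?_)
    intro a ha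
    exact hn.trans_le (not_lt.1 fun h => hmin a ha h)
  have hR : sx K.ord l F x ⊆ ZFSet.prod m.toZFSet (V_ l) := by
    intro z hz
    obtain ⟨k, a, rfl, h4, h5⟩ := hreg x z hz
    exact ZFSet.pair_mem_prod.2 ⟨h5 _ hmx', h4⟩
  have hRi : ∀ k < m, ∀ a : ZFSet.{u}, ZFSet.pair x (ZFSet.pair k.toZFSet a) ∈ F ↔
      ZFSet.pair k.toZFSet a ∈ sx K.ord l F x := by
    intro k hk a
    unfold sx
    rw [ZFSet.mem_sep]
    refine ⟨fun h => ⟨ZFSet.pair_mem_prod.2 ⟨?_, hval x k a h⟩, h⟩, fun h => h.2⟩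
    exact toZFSet_mem_toZFSet_iff.2 (hk.trans ha)
  have hiff : ∀ R ⊆ ZFSet.prod m.toZFSet (V_ l), ∀ n < m,
      (PQ μ.toZFSet K.ord.toZFSet F (ZFSet.prod n.toZFSet (V_ l)) R ↔
        PosX μ K.ord fun x' => ∀ k < n, ∀ a, ZFSet.pair x' (ZFSet.pair k.toZFSet a) ∈ F ↔
          ZFSet.pair k.toZFSet a ∈ R) := by
    intro R hRm n hn
    unfold PQ
    rw [rank_toZFSet, rank_toZFSet]
    constructor
    · rintro ⟨_, _, h⟩
      refine posX_mono (fun x' h k hk a => ?_) h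
      by_cases haV : a ∈ V_ l
      · exact h _ (ZFSet.pair_mem_prod.2 ⟨toZFSet_mem_toZFSet_iff.2 hk, haV⟩)
      · exact ⟨fun h => absurd (hval x' k a h) haV,
          fun h => absurd (ZFSet.pair_mem_prod.1 (hRm h)).2 haV⟩
    · intro h
      refine ⟨ZFSet.isOrdinal_toZFSet _, ZFSet.isOrdinal_toZFSet _, posX_mono ?_ h⟩
      intro x' h w hw
      obtain ⟨k', hk', a, _, rfl⟩ := ZFSet.mem_prod.1 hw
      obtain ⟨k, hk, rfl⟩ := mem_toZFSet_iff.1 hk'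
      exact h k hk a
  have hsub : ∀ n < m, ZFSet.prod n.toZFSet (V_ l) ⊆ ZFSet.prod m.toZFSet (V_ l) := by
    intro n hn w hw
    obtain ⟨k', hk', a, h4, rfl⟩ := ZFSet.mem_prod.1 hw
    obtain ⟨k, hk, rfl⟩ := mem_toZFSet_iff.1 hk'
    exact ZFSet.pair_mem_prod.2 ⟨toZFSet_mem_toZFSet_iff.2 (hk.trans hn), h4⟩
  have hQo : OD (ZFSet.powerset (ZFSet.prod m.toZFSet (V_ l))) :=
    od_pow (od_prod (OD.ordinal m) (Pool.Agent.H1.HD9.Y5.od_V l))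
  refine ⟨ZFSet.sep (fun R => QV m.toZFSet (V_ l) (ZFSet.powerset (ZFSet.prod m.toZFSet (V_ l)))
    μ.toZFSet K.ord.toZFSet F R) (ZFSet.powerset (ZFSet.prod m.toZFSet (V_ l))), ?_, ?_, ?_⟩
  · exact Pool.Agent.H45.NF.od_sep hQo (dz_QV (OD.ordinal m) (Pool.Agent.H1.HD9.Y5.od_V l) hQo
      (OD.ordinal μ) (OD.ordinal K.ord) hF)
  · rw [ZFSet.mem_sep, ZFSet.mem_powerset]
    refine ⟨hR, ?_⟩
    rintro n' hn' Q _ rfl
    obtain ⟨n, hn, rfl⟩ := mem_toZFSet_iff.1 hn'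
    refine (hiff _ hR n hn).2 (posX_mono ?_ (hpos n hn))
    intro x' h k hk a
    exact (h k hk a).trans (hRi k (hk.trans hn) a)
  · refine h3 D K hDr hDs hD0 hK hDK μ l F (h1 D.ord hδ hA K hK hδK μ hμ hμ0 F hF) hgd m ha
      hlim _ ?_
    intro R hRZ
    rw [ZFSet.mem_sep, ZFSet.mem_powerset] at hRZ
    refine ⟨hRZ.1, fun n hn => (hiff R hRZ.1 n hn).1 ?_⟩
    exact hRZ.2 n.toZFSet (toZFSet_mem_toZFSet_iff.2 hn) _
      (ZFSet.mem_powerset.2 (hsub n hn)) rfl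

end Pool.Agent.H17.HV
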